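import Pool.Agent.VD.Fin

/-!
# MP_cf06d4_co: the valley Delta square conjecture (Iraci - Vanden Wyngaerd), Q1, full answer

Conventions: `Pool/Agent/VD/Defs.lean` (symmetric functions, Macdonald polynomials, Delta operators) and
`Pool/Agent/VD/Comb.lean` (labelled square paths with decorated contractible valleys).
-/

set_option autoImplicit false

namespace Pool.Agent.Results.MP_cf06d4_co.ValleyDeltaSquare

open MvPolynomial Pool.VD

/-- Let `K` be a field of characteristic 0 and `q, t ∈ K` algebraically independent over `ℚ` (for example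
`K = ℚ(q,t)`).  (1) For every partition `μ` the modified Macdonald polynomial (Haiman's axioms) exists and is unique up to
a scalar.  (2) The operators `Delta_(e_m)` exist in every degree.  (3) For all `n ≥ 1`, `k ≥ 0` the generating function
`F_(n,k)` of the labelled square paths of size `n` with `k` decorated contractible valleys equals
`([n-k]_q/[n]_q) Delta_(e_(n-k)) ω(p_n)`, in every number `N` of variables. -/
theorem result (K : Type) [Field K] [CharZero K] (q t : K) (hqt : AlgebraicIndependent ℚ ![q, t]) :
    (∀ μ : YoungDiagram, ∃ H : Lam K, IsMac q t μ H ∧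
      ∀ H' : Lam K, IsMac q t μ H' → ∃ c : K, H' = c • H) ∧
    (∀ n m : ℕ, ∃ D : Lam K →ₗ[K] Lam K, IsDelta q t n m D) ∧
    ∀ n k N : ℕ, 1 ≤ n → ∀ D : Lam K →ₗ[K] Lam K, IsDelta q t n (n - k) D →
      FF q t n k N = C (qn q (n - k) / qn q n) * evN K N (D (omp K n)) :=
  ⟨qMacU K q t hqt, (qMX K q t hqt).2.1, qQ1 K q t hqt⟩

end Pool.Agent.Results.MP_cf06d4_co.ValleyDeltaSquare
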